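import Pool.Agent.Helper61.Ru.HtLowA

/-!
# Packet H14 (HtLow): the height of a hyperplane spanned by small points is large
-/

set_option autoImplicit false

open NumberField

namespace Pool.Agent.Helper61.Ru

open Pool.Agent.Helper92.Ru

section pattern

variable {k : Type} [Field k] [NumberField k] {T : Finset (FinitePlace k)} {ι : Type} [Fintype ι]
  [DecidableEq ι]

/-- the functionals whose transformed coordinates vanish outside the pattern -/
def UU (A : SP k T → Matrix ι ι k) (I : SP k T → Finset ι) : Submodule k (ι → k) where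
  carrier := {b | ∀ v, ∀ i, i ∉ I v → Matrix.vecMul b (A v)⁻¹ i = 0}
  add_mem' := by
    intro a b ha hb v i hi
    rw [Matrix.add_vecMul, Pi.add_apply, ha v i hi, hb v i hi, add_zero]
  zero_mem' := by
    intro v i _
    rw [Matrix.zero_vecMul, Pi.zero_apply]
  smul_mem' := by
    intro c b hb v i hi
    rw [Matrix.smul_vecMul, Pi.smul_apply, hb v i hi, smul_zero]

/-- the common kernel -/
def WW (A : SP k T → Matrix ι ι k) (I : SP k T → Finset ι) : Submodule k (ι → k) where
  carrier := {x | ∀ b ∈ UU A I, b ⬝ᵥ x = 0}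
  add_mem' := by
    intro x y hx hy b hb
    rw [dotProduct_add, hx b hb, hy b hb, add_zero]
  zero_mem' := by
    intro b _
    rw [dotProduct_zero]
  smul_mem' := by
    intro c x hx b hb
    rw [dotProduct_smul, hx b hb, smul_zero]

theorem mem_UU {A : SP k T → Matrix ι ι k} {I : SP k T → Finset ι} {b : ι → k} :
    b ∈ UU A I ↔ ∀ v, ∀ i, i ∉ I v → Matrix.vecMul b (A v)⁻¹ i = 0 := Iff.rfl

theorem mem_WW {A : SP k T → Matrix ι ι k} {I : SP k T → Finset ι} {x : ι → k} :
    x ∈ WW A I ↔ ∀ b ∈ UU A I, b ⬝ᵥ x = 0 := Iff.rfl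

end pattern

theorem htLow (hCM : ColMat) : HtLow := by
  intro k _ _ T ι _ _ _ A hA hN e he
  classical
  -- basic constants
  set δ : ℝ := -∑ v, ∑ i, e v i with hδ
  have hδ0 : 0 < δ := by rw [hδ]; linarith
  set s : ℕ := Fintype.card (SP k T) with hs
  have hs0 : 0 < s := Fintype.card_pos
  have hs0' : (0 : ℝ) < s := by exact_mod_cast hs0
  set N : ℕ := Fintype.card ι with hNdef
  have hunit : ∀ v, IsUnit (A v).det := fun v => isUnit_iff_ne_zero.2 (hA v)
  obtain ⟨C2, hC2, hheight⟩ := exists_height_const (T := T) (fun v => (A v)⁻¹)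
  set C1 : ℝ := 1 + ∑ v, (N.factorial : ℝ) ^ 2 * nS v ((A v).det)⁻¹ with hC1
  have hC1pos : ∀ v, 0 ≤ (N.factorial : ℝ) ^ 2 * nS v ((A v).det)⁻¹ := fun v =>
    mul_nonneg (by positivity) (nS_nonneg _ _)
  have hC1v : ∀ v, (N.factorial : ℝ) ^ 2 * nS v ((A v).det)⁻¹ ≤ C1 := by
    intro v
    have := Finset.single_le_sum (f := fun v => (N.factorial : ℝ) ^ 2 * nS v ((A v).det)⁻¹)
      (fun v _ => hC1pos v) (Finset.mem_univ v)
    rw [hC1]
    linarith
  have hC11 : 1 ≤ C1 := by
    have := Finset.sum_nonneg (fun v (_ : v ∈ Finset.univ) => hC1pos v)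
    rw [hC1]
    linarith
  choose G hGint hGspan using fun I : SP k T → Finset ι => exists_gens T (UU A I)
  set D0 : ℝ := 1 + ∑ I, ∑ b ∈ G I, ∑ v, ∑ i, nS v (Matrix.vecMul b (A v)⁻¹ i) with hD0
  have hD0n : ∀ I, 0 ≤ ∑ b ∈ G I, ∑ v, ∑ i, nS v (Matrix.vecMul b (A v)⁻¹ i) := fun I =>
    Finset.sum_nonneg (fun b _ => Finset.sum_nonneg (fun v _ => Finset.sum_nonneg
      (fun i _ => nS_nonneg _ _)))
  have hD0v : ∀ I, ∀ b ∈ G I, ∀ v i, nS v (Matrix.vecMul b (A v)⁻¹ i) ≤ D0 := by
    intro I b hb v i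
    have h1 : nS v (Matrix.vecMul b (A v)⁻¹ i) ≤ ∑ i, nS v (Matrix.vecMul b (A v)⁻¹ i) :=
      Finset.single_le_sum (f := fun i => nS v (Matrix.vecMul b (A v)⁻¹ i))
        (fun i _ => nS_nonneg _ _) (Finset.mem_univ i)
    have h2 : ∑ i, nS v (Matrix.vecMul b (A v)⁻¹ i)
        ≤ ∑ v, ∑ i, nS v (Matrix.vecMul b (A v)⁻¹ i) :=
      Finset.single_le_sum (f := fun v => ∑ i, nS v (Matrix.vecMul b (A v)⁻¹ i))
        (fun v _ => Finset.sum_nonneg (fun i _ => nS_nonneg _ _)) (Finset.mem_univ v)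
    have h3 : ∑ v, ∑ i, nS v (Matrix.vecMul b (A v)⁻¹ i)
        ≤ ∑ b ∈ G I, ∑ v, ∑ i, nS v (Matrix.vecMul b (A v)⁻¹ i) :=
      Finset.single_le_sum (f := fun b => ∑ v, ∑ i, nS v (Matrix.vecMul b (A v)⁻¹ i))
        (fun b _ => Finset.sum_nonneg (fun v _ => Finset.sum_nonneg
          (fun i _ => nS_nonneg _ _))) hb
    have h4 : ∑ b ∈ G I, ∑ v, ∑ i, nS v (Matrix.vecMul b (A v)⁻¹ i)
        ≤ ∑ I, ∑ b ∈ G I, ∑ v, ∑ i, nS v (Matrix.vecMul b (A v)⁻¹ i) :=
      Finset.single_le_sum (f := fun I => ∑ b ∈ G I, ∑ v, ∑ i, nS v (Matrix.vecMul b (A v)⁻¹ i))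
        (fun I _ => hD0n I) (Finset.mem_univ I)
    rw [hD0]
    linarith
  have hD01 : 1 ≤ D0 := by
    have := Finset.sum_nonneg (fun I (_ : I ∈ Finset.univ) => hD0n I)
    rw [hD0]
    linarith
  set D : ℝ := (N : ℝ) ^ 2 * D0 with hD
  have hDn : 0 ≤ D := by positivity
  set Kc : ℝ := (C1 * C2) ^ s + D ^ s + 1 with hKc
  have hKcpos : 0 < Kc := by positivity
  have hKc1 : (C1 * C2) ^ s ≤ Kc := by
    have : 0 ≤ D ^ s := by positivity
    rw [hKc]; linarith
  have hKc2 : D ^ s ≤ Kc := by
    have : 0 ≤ (C1 * C2) ^ s := by positivity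
    rw [hKc]; linarith
  set c : ℝ := δ / (4 * s) with hc
  have hc0 : 0 < c := by positivity
  refine ⟨c, max 2 (Kc ^ (4 / δ)), Set.range (WW A), hc0,
    (by norm_num : (1 : ℝ) ≤ 2).trans (le_max_left _ _), Set.finite_range _, ?_⟩
  intro W hWF hWdim Q hQ hspan a ha haW
  by_contra hlt
  rw [not_le] at hlt
  apply hWF
  have hQ2 : 2 ≤ Q := (le_max_left _ _).trans hQ
  have hQ1 : 1 < Q := by linarith
  have hQ0 : 0 < Q := by linarith
  have hQK : Kc ≤ Q ^ (δ / 4) := by
    have h1 : Kc ^ (4 / δ) ≤ Q := (le_max_right _ _).trans hQ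
    have h2 : (Kc ^ (4 / δ)) ^ (δ / 4) ≤ Q ^ (δ / 4) :=
      Real.rpow_le_rpow (by positivity) h1 (by positivity)
    rw [← Real.rpow_mul hKcpos.le] at h2
    have h3 : 4 / δ * (δ / 4) = 1 := by field_simp
    rwa [h3, Real.rpow_one] at h2
  obtain ⟨B, st, i0, hdet, hBint, hBsmall, -, hBW, hBker, -⟩ := hCM k T ι A (wQ Q e) W hWdim hspan
  have hBsmall' : ∀ v i j, j ≠ st → nS v ((A v * B) i j) ≤ Q ^ e v i := hBsmall
  have hBunit : IsUnit B.det := isUnit_iff_ne_zero.2 hdet
  -- the functional `a'`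
  set a' : ι → k := B.adjugate st with ha'
  have hadj : a' = B.det • B⁻¹ st := by
    rw [ha', Matrix.inv_def, Ring.inverse_eq_inv']
    funext i
    simp [hdet]
  have hBinv : B⁻¹ * B = 1 := Matrix.nonsing_inv_mul B hBunit
  have hBinv' : B * B⁻¹ = 1 := Matrix.mul_nonsing_inv B hBunit
  -- expansion of vectors of `W` along the columns of `B`
  have hexp : ∀ x : ι → k, x = ∑ j, (B⁻¹.mulVec x) j • (fun i => B i j) := by
    intro x
    have h1 : B.mulVec (B⁻¹.mulVec x) = x := by
      rw [Matrix.mulVec_mulVec, hBinv', Matrix.one_mulVec]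
    funext i
    conv_lhs => rw [← h1]
    simp only [Matrix.mulVec, dotProduct, Finset.sum_apply, Pi.smul_apply, smul_eq_mul]
    apply Finset.sum_congr rfl
    intro j _
    ring
  have hWiff : ∀ x : ι → k, B⁻¹ st ⬝ᵥ x = 0 → x ∈ W := by
    intro x hx
    rw [hexp x]
    apply Submodule.sum_mem
    intro j _
    by_cases hj : j = st
    · have h1 : (B⁻¹.mulVec x) j = 0 := by
        rw [hj]
        exact hx
      rw [h1, zero_smul]
      exact Submodule.zero_mem _
    · exact Submodule.smul_mem _ _ (hBW j hj)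
  have haa' : ∃ μ : k, μ ≠ 0 ∧ a = μ • a' := by
    have h1 : a = Matrix.vecMul (Matrix.vecMul a B) B⁻¹ := by
      rw [Matrix.vecMul_vecMul, hBinv', Matrix.vecMul_one]
    have h2 : ∀ j, j ≠ st → Matrix.vecMul a B j = 0 := fun j hj => haW _ (hBW j hj)
    have h3 : a = Matrix.vecMul a B st • B⁻¹ st := by
      conv_lhs => rw [h1]
      funext i
      simp only [Matrix.vecMul, dotProduct, Pi.smul_apply, smul_eq_mul]
      rw [Finset.sum_eq_single st]
      · intro j _ hj
        have := h2 j hj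
        simp only [Matrix.vecMul, dotProduct] at this
        rw [this, zero_mul]
      · intro h
        exact absurd (Finset.mem_univ _) h
    refine ⟨Matrix.vecMul a B st / B.det, ?_, ?_⟩
    · intro h
      apply ha
      have h4 : Matrix.vecMul a B st = 0 := by
        rcases div_eq_zero_iff.1 h with h | h
        · exact h
        · exact absurd h hdet
      rw [h3, h4, zero_smul]
    · rw [hadj, smul_smul, div_mul_cancel₀ _ hdet]
      exact h3
  obtain ⟨μ, hμ, haμ⟩ := haa'
  have ha'0 : a' ≠ 0 := by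
    intro h
    apply ha
    rw [haμ, h, smul_zero]
  have hH : Height.mulHeight a' < Q ^ c := by
    rw [haμ, Height.mulHeight_smul_eq_mulHeight _ hμ] at hlt
    exact hlt
  have hHpos : 0 < Height.mulHeight a' := Height.mulHeight_pos a'
  -- the pattern
  set tv : SP k T → ι → k := fun v => Matrix.vecMul a' (A v)⁻¹ with htv
  set I : SP k T → Finset ι := fun v => Finset.univ.filter (fun i => tv v i ≠ 0) with hI
  have hIne : ∀ v, (I v).Nonempty := by
    intro v
    by_contra h
    rw [Finset.not_nonempty_iff_eq_empty] at h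
    have h1 : tv v = 0 := by
      funext i
      by_contra h2
      have : i ∈ I v := by
        rw [hI]
        exact Finset.mem_filter.2 ⟨Finset.mem_univ _, h2⟩
      rw [h] at this
      exact absurd this (Finset.notMem_empty _)
    apply ha'0
    have h2 : Matrix.vecMul (tv v) (A v) = a' := by
      rw [htv]
      simp only
      rw [Matrix.vecMul_vecMul, Matrix.nonsing_inv_mul _ (hunit v), Matrix.vecMul_one]
    rw [← h2, h1, Matrix.zero_vecMul]
  choose m hmI hmmax using fun v => Finset.exists_max_image (I v) (e v) (hIne v)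
  choose p hp using fun v : SP k T => Finite.exists_max (fun i => nS v (a' i))
  have hpne : ∀ v, a' (p v) ≠ 0 := by
    intro v h
    apply ha'0
    funext i
    have h1 := hp v i
    rw [h, nS_zero] at h1
    exact (nS_eq_zero v).1 (le_antisymm h1 (nS_nonneg _ _))
  -- bound for the transformed coordinates
  have htvb : ∀ v i, nS v (tv v i) ≤ C1 * Q ^ (∑ i', e v i' - e v i) := by
    intro v i
    have h1 : tv v i = ((A v).det)⁻¹ * (A v * B).adjugate st i := by
      rw [htv]
      simp only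
      rw [Matrix.adjugate_mul_distrib, Matrix.inv_def, Ring.inverse_eq_inv', ha']
      rw [Matrix.vecMul_smul, Pi.smul_apply, smul_eq_mul]
      rfl
    rw [h1, nS_mul]
    have h2 := adj_bound v (A v * B) (fun i => Q ^ e v i) (fun i => by positivity) st
      (fun i j hj => hBsmall' v i j hj) i
    have h3 : ∏ i' ∈ Finset.univ.erase i, Q ^ e v i' = Q ^ (∑ i', e v i' - e v i) := by
      rw [← Real.rpow_sum_of_pos hQ0]
      congr 1
      rw [← Finset.add_sum_erase Finset.univ (e v) (Finset.mem_univ i)]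
      ring
    rw [h3] at h2
    calc nS v ((A v).det)⁻¹ * nS v ((A v * B).adjugate st i)
        ≤ nS v ((A v).det)⁻¹ * ((N.factorial : ℝ) ^ 2 * Q ^ (∑ i', e v i' - e v i)) :=
          mul_le_mul_of_nonneg_left h2 (nS_nonneg _ _)
      _ = ((N.factorial : ℝ) ^ 2 * nS v ((A v).det)⁻¹) * Q ^ (∑ i', e v i' - e v i) := by ring
      _ ≤ C1 * Q ^ (∑ i', e v i' - e v i) :=
          mul_le_mul_of_nonneg_right (hC1v v) (by positivity)
  have hMv : ∀ v, nS v (a' (p v))
      ≤ (C1 * C2) * Q ^ (c + ∑ i', e v i' - e v (m v)) := by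
    intro v
    have hne : tv v (m v) ≠ 0 := (Finset.mem_filter.1 (hmI v)).2
    have h1 := hheight a' ha'0 v (m v) (p v)
    have h2 : nS v ((tv v (m v) / a' (p v))⁻¹) ≤ C2 * Height.mulHeight a' := by
      refine (nS_le_mulHeight₁ v _).trans ?_
      rw [Height.mulHeight₁_inv]
      exact h1
    rw [inv_div, nS_div, div_le_iff₀ (nS_pos v hne)] at h2
    calc nS v (a' (p v)) ≤ C2 * Height.mulHeight a' * nS v (tv v (m v)) := h2
      _ ≤ C2 * Q ^ c * (C1 * Q ^ (∑ i', e v i' - e v (m v))) := by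
          apply mul_le_mul
          · exact mul_le_mul_of_nonneg_left hH.le (by linarith)
          · exact htvb v (m v)
          · exact nS_nonneg _ _
          · positivity
      _ = (C1 * C2) * (Q ^ c * Q ^ (∑ i', e v i' - e v (m v))) := by ring
      _ = (C1 * C2) * Q ^ (c + ∑ i', e v i' - e v (m v)) := by
          rw [← Real.rpow_add hQ0]
          congr 2
          ring
  -- the exponents
  have hsum : ∑ v, e v (m v) ≤ -δ / 2 := by
    obtain ⟨l, hl⟩ := Function.ne_iff.1 ha'0
    have hl' : a' l ≠ 0 := hl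
    have h1 : (1 : ℝ) ≤ ∏ v : SP k T, nS v (a' l) :=
      one_le_prod_nS (SInt_adj B hBint st l) hl'
    have h2 : ∏ v : SP k T, nS v (a' l)
        ≤ ∏ v : SP k T, (C1 * C2) * Q ^ (c + ∑ i', e v i' - e v (m v)) :=
      Finset.prod_le_prod (fun v _ => nS_nonneg _ _) (fun v _ => (hp v l).trans (hMv v))
    rw [Finset.prod_mul_distrib, Finset.prod_const, Finset.card_univ, ← hs,
      ← Real.rpow_sum_of_pos hQ0] at h2
    have h3 : ∑ v : SP k T, (c + ∑ i', e v i' - e v (m v)) = δ / 4 - δ - ∑ v, e v (m v) := by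
      rw [Finset.sum_sub_distrib, Finset.sum_add_distrib, Finset.sum_const, Finset.card_univ,
        ← hs, nsmul_eq_mul, hc]
      have h4 : (s : ℝ) * (δ / (4 * s)) = δ / 4 := by field_simp
      rw [h4, hδ]
      ring
    rw [h3] at h2
    have h5 : (1 : ℝ) ≤ Q ^ (δ / 4) * Q ^ (δ / 4 - δ - ∑ v, e v (m v)) := by
      refine h1.trans (h2.trans ?_)
      apply mul_le_mul_of_nonneg_right (hKc1.trans hQK)
      positivity
    rw [← Real.rpow_add hQ0] at h5
    by_contra h6
    rw [not_le] at h6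
    have h7 : δ / 4 + (δ / 4 - δ - ∑ v, e v (m v)) < 0 := by linarith
    have h8 := Real.rpow_lt_one_of_one_lt_of_neg hQ1 h7
    linarith
  -- the kernel
  refine ⟨I, ?_⟩
  apply le_antisymm
  · intro x hx
    apply hWiff
    have h1 : a' ∈ UU A I := by
      intro v i hi
      by_contra h2
      apply hi
      exact Finset.mem_filter.2 ⟨Finset.mem_univ _, h2⟩
    have h2 : a' ⬝ᵥ x = 0 := mem_WW.1 hx a' h1
    rw [hadj, smul_dotProduct, smul_eq_mul] at h2
    rcases mul_eq_zero.1 h2 with h | h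
    · exact absurd h hdet
    · exact h
  · intro x hx b hb
    -- the functional vanishes on the columns
    have hcol : ∀ b ∈ G I, ∀ j, j ≠ st → b ⬝ᵥ (fun i => B i j) = 0 := by
      intro b hb j hj
      by_contra hne
      have hint : SInt T (b ⬝ᵥ (fun i => B i j)) := by
        apply SInt.sum
        intro i _
        exact (hGint I b hb i).mul (hBint i j)
      have h1 : (1 : ℝ) ≤ ∏ v : SP k T, nS v (b ⬝ᵥ (fun i => B i j)) :=
        one_le_prod_nS hint hne
      have hbU : b ∈ UU A I := by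
        rw [← hGspan I]
        exact Submodule.subset_span hb
      have h2 : ∀ v, nS v (b ⬝ᵥ (fun i => B i j)) ≤ D * Q ^ e v (m v) := by
        intro v
        have h3 : b ⬝ᵥ (fun i => B i j)
            = ∑ i, Matrix.vecMul b (A v)⁻¹ i * (A v * B) i j := by
          have h4 : Matrix.vecMul (Matrix.vecMul b (A v)⁻¹) (A v * B) = Matrix.vecMul b B := by
            rw [Matrix.vecMul_vecMul, ← Matrix.mul_assoc,
              Matrix.nonsing_inv_mul _ (hunit v), Matrix.one_mul]
          have h5 := congrFun h4 j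
          exact h5.symm
        rw [h3]
        have h6 := nS_sum_le v (Finset.univ : Finset ι)
          (fun i => Matrix.vecMul b (A v)⁻¹ i * (A v * B) i j) (D0 * Q ^ e v (m v)) (by
            intro i _
            rw [nS_mul]
            by_cases hi : i ∈ I v
            · apply mul_le_mul (hD0v I b hb v i) _ (nS_nonneg _ _) (by linarith)
              refine (hBsmall' v i j hj).trans ?_
              exact Real.rpow_le_rpow_of_exponent_le hQ1.le (hmmax v i hi)
            · rw [mem_UU.1 hbU v i hi, nS_zero, zero_mul]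
              positivity)
        rw [Finset.card_univ, ← hNdef, ← mul_assoc] at h6
        exact h6
      have h7 : ∏ v : SP k T, nS v (b ⬝ᵥ (fun i => B i j)) ≤ ∏ v : SP k T, D * Q ^ e v (m v) :=
        Finset.prod_le_prod (fun v _ => nS_nonneg _ _) (fun v _ => h2 v)
      rw [Finset.prod_mul_distrib, Finset.prod_const, Finset.card_univ, ← hs,
        ← Real.rpow_sum_of_pos hQ0] at h7
      have h8 : D ^ s * Q ^ (∑ v, e v (m v)) ≤ Q ^ (δ / 4) * Q ^ (-δ / 2) := by
        apply mul_le_mul (hKc2.trans hQK) _ (by positivity) (by positivity)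
        exact Real.rpow_le_rpow_of_exponent_le hQ1.le hsum
      rw [← Real.rpow_add hQ0] at h8
      have h9 : δ / 4 + -δ / 2 < 0 := by linarith
      have h10 := Real.rpow_lt_one_of_one_lt_of_neg hQ1 h9
      linarith
    -- hence on `W`
    have hxst : (B⁻¹.mulVec x) st = 0 := hBker x hx
    have hGx : ∀ b ∈ G I, b ⬝ᵥ x = 0 := by
      intro b hb
      rw [hexp x, dotProduct_sum]
      apply Finset.sum_eq_zero
      intro j _
      rw [dotProduct_smul]
      by_cases hj : j = st
      · rw [hj, hxst, zero_smul]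
      · rw [hcol b hb j hj, smul_zero]
    have hb' : b ∈ Submodule.span k ((G I : Finset (ι → k)) : Set (ι → k)) := by
      rw [hGspan I]
      exact hb
    refine Submodule.span_induction (p := fun b _ => b ⬝ᵥ x = 0) ?_ ?_ ?_ ?_ hb'
    · intro b hb
      exact hGx b hb
    · rw [zero_dotProduct]
    · intro b b' _ _ h1 h2
      rw [add_dotProduct, h1, h2, add_zero]
    · intro r b _ h1
      rw [smul_dotProduct, h1, smul_zero]

end Pool.Agent.Helper61.Ru
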