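import Pool.Agent.Helper92.Ru.GoalsH
import Pool.Agent.Helper96.Ru.HeightLocal

/-!
# Packet H14 (HtLow): auxiliary lemmas
-/

set_option autoImplicit false

open NumberField

namespace Pool.Agent.Helper61.Ru

open Pool.Agent.Helper92.Ru

variable {k : Type} [Field k] [NumberField k] {T : Finset (FinitePlace k)}

/-- factors are at most the product if all factors are at least one -/
theorem le_prod_of_one_le {α : Type*} (s : Finset α) (f : α → ℝ) (h : ∀ a ∈ s, 1 ≤ f a) (a : α)
    (ha : a ∈ s) : f a ≤ ∏ b ∈ s, f b := by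
  classical
  rw [← Finset.mul_prod_erase s f ha]
  have h1 : (1 : ℝ) ≤ ∏ b ∈ s.erase a, f b := by
    calc (1 : ℝ) = ∏ b ∈ s.erase a, (1 : ℝ) := by simp
      _ ≤ ∏ b ∈ s.erase a, f b := Finset.prod_le_prod (fun _ _ => zero_le_one)
        (fun b hb => h b (Finset.mem_of_mem_erase hb))
  have h2 : 0 ≤ f a := zero_le_one.trans (h a ha)
  nlinarith

theorem nS_le_mulHeight₁ (v : SP k T) (z : k) : nS v z ≤ Height.mulHeight₁ z := by
  rw [NumberField.mulHeight₁_eq]
  have hf1 : (1 : ℝ) ≤ ∏ᶠ w : FinitePlace k, max (w z) 1 :=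
    one_le_finprod fun _ => le_max_right _ _
  have hi1 : ∀ u : InfinitePlace k, (1 : ℝ) ≤ max (u z) 1 ^ u.mult := fun u =>
    one_le_pow₀ (le_max_right _ _)
  have hi : (1 : ℝ) ≤ ∏ u : InfinitePlace k, max (u z) 1 ^ u.mult := by
    calc (1 : ℝ) = ∏ u : InfinitePlace k, (1 : ℝ) := by simp
      _ ≤ _ := Finset.prod_le_prod (fun _ _ => zero_le_one) (fun u _ => hi1 u)
  rcases v with u | w
  · rw [nS_inl]
    have h1 : u z ^ u.mult ≤ max (u z) 1 ^ u.mult :=
      pow_le_pow_left₀ (apply_nonneg u z) (le_max_left _ _) _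
    have h2 := le_prod_of_one_le (Finset.univ : Finset (InfinitePlace k))
      (fun u => max (u z) 1 ^ u.mult) (fun u _ => hi1 u) u (Finset.mem_univ u)
    have h3 : 0 ≤ ∏ u : InfinitePlace k, max (u z) 1 ^ u.mult := zero_le_one.trans hi
    calc u z ^ u.mult ≤ ∏ u : InfinitePlace k, max (u z) 1 ^ u.mult := h1.trans h2
      _ = (∏ u : InfinitePlace k, max (u z) 1 ^ u.mult) * 1 := (mul_one _).symm
      _ ≤ _ := mul_le_mul_of_nonneg_left hf1 h3
  · rw [nS_inr]
    have h2 : w.1 z ≤ ∏ᶠ w : FinitePlace k, max (w z) 1 := by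
      by_cases hz : z = 0
      · rw [hz, map_zero]
        refine zero_le_one.trans ?_
        exact one_le_finprod fun _ => le_max_right _ _
      have hfin : (Function.mulSupport fun w : FinitePlace k => max (w z) 1).Finite := by
        refine (FinitePlace.hasFiniteMulSupport hz).subset ?_
        intro w hw h
        apply hw
        show max (w z) 1 = 1
        have h' : w z = 1 := h
        rw [h', max_self]
      classical
      have h3 : ∏ᶠ w : FinitePlace k, max (w z) 1
          = ∏ w ∈ insert w.1 hfin.toFinset, max (w z) 1 := by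
        apply finprod_eq_prod_of_mulSupport_subset
        intro w' hw'
        simp only [Finset.coe_insert, Set.Finite.coe_toFinset, Set.mem_insert_iff]
        exact Or.inr hw'
      rw [h3]
      exact (le_max_left _ _).trans (le_prod_of_one_le (insert w.1 hfin.toFinset)
        (fun w => max (w z) 1) (fun _ _ => le_max_right _ _) w.1 (Finset.mem_insert_self _ _))
    calc w.1 z ≤ ∏ᶠ w : FinitePlace k, max (w z) 1 := h2
      _ = 1 * ∏ᶠ w : FinitePlace k, max (w z) 1 := (one_mul _).symm
      _ ≤ _ := mul_le_mul_of_nonneg_right hi (zero_le_one.trans hf1)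

/-- common denominators -/
theorem exists_den {α : Type} [Finite α] (f : α → k) :
    ∃ d : k, d ≠ 0 ∧ (∃ d' : 𝓞 k, (d' : k) = d) ∧ ∀ a, ∃ b : 𝓞 k, (b : k) = d * f a := by
  obtain ⟨b, hb⟩ := IsLocalization.exist_integer_multiples_of_finite (nonZeroDivisors (𝓞 k)) f
  refine ⟨((b : 𝓞 k) : k), ?_, ⟨b, rfl⟩, ?_⟩
  · have h1 : (b : 𝓞 k) ≠ 0 := nonZeroDivisors.ne_zero b.2
    intro h
    exact h1 (by exact_mod_cast h)
  · intro a
    obtain ⟨c, hc⟩ := hb a
    refine ⟨c, ?_⟩
    have : algebraMap (𝓞 k) k c = (b : 𝓞 k) • f a := hc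
    rw [Algebra.smul_def] at this
    exact this

/-- a submodule is generated by finitely many vectors with `S`-integral coordinates -/
theorem exists_gens {ι : Type} [Fintype ι] (T : Finset (FinitePlace k))
    (U : Submodule k (ι → k)) :
    ∃ G : Finset (ι → k), (∀ b ∈ G, ∀ i, SInt T (b i)) ∧ Submodule.span k (G : Set (ι → k)) = U := by
  classical
  obtain ⟨S, hS⟩ := (IsNoetherian.noetherian U : U.FG)
  choose d hd0 _ hd using fun b : ι → k => exists_den b
  refine ⟨S.image (fun b => d b • b), ?_, ?_⟩
  · intro b hb i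
    obtain ⟨b', _, rfl⟩ := Finset.mem_image.1 hb
    obtain ⟨c, hc⟩ := hd b' i
    show SInt T (d b' * b' i)
    rw [← hc]
    exact SInt.of_int c
  · rw [← hS]
    apply le_antisymm
    · rw [Submodule.span_le]
      intro x hx
      rw [Finset.mem_coe, Finset.mem_image] at hx
      obtain ⟨b', hb', rfl⟩ := hx
      exact Submodule.smul_mem _ _ (Submodule.subset_span hb')
    · rw [Submodule.span_le]
      intro b hb
      have h1 : d b • b ∈ Submodule.span k ((S.image (fun b => d b • b) : Finset (ι → k)) :
          Set (ι → k)) := by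
        apply Submodule.subset_span
        rw [Finset.mem_coe, Finset.mem_image]
        exact ⟨b, hb, rfl⟩
      have h2 := Submodule.smul_mem _ (d b)⁻¹ h1
      rw [smul_smul, inv_mul_cancel₀ (hd0 b), one_smul] at h2
      exact h2

/-- bound for a row of the adjugate -/
theorem adj_bound {ι : Type} [Fintype ι] [DecidableEq ι] (v : SP k T) (M : Matrix ι ι k)
    (g : ι → ℝ) (hg : ∀ i, 0 ≤ g i) (st : ι) (h : ∀ i j, j ≠ st → nS v (M i j) ≤ g i) (i : ι) :
    nS v (M.adjugate st i) ≤
      ((Fintype.card ι).factorial : ℝ) ^ 2 * ∏ i' ∈ Finset.univ.erase i, g i' := by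
  rw [Matrix.adjugate_apply, ← Matrix.det_transpose, Matrix.det_apply]
  have hcard : (Finset.univ : Finset (Equiv.Perm ι)).card = (Fintype.card ι).factorial := by
    rw [Finset.card_univ, Fintype.card_perm]
  rw [← hcard]
  apply nS_sum_le
  intro σ _
  have hprod : 0 ≤ ∏ i' ∈ Finset.univ.erase i, g i' := Finset.prod_nonneg (fun i' _ => hg i')
  have hsign : ∀ x : k, nS v (Equiv.Perm.sign σ • x) = nS v x := by
    intro x
    rcases Int.units_eq_one_or (Equiv.Perm.sign σ) with hs | hs
    · rw [hs, one_smul]
    · rw [hs, Units.neg_smul, one_smul, nS_neg]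
  rw [hsign, nS_prod, ← Finset.mul_prod_erase Finset.univ _ (Finset.mem_univ i)]
  rw [Matrix.transpose_apply]
  by_cases hσ : σ i = st
  · have h1 : nS v (M.updateRow i (Pi.single st 1) i (σ i)) = 1 := by
      rw [hσ, Matrix.updateRow_self, Pi.single_eq_same, nS_one]
    rw [h1, one_mul]
    apply Finset.prod_le_prod
    · intro i' _
      exact nS_nonneg _ _
    · intro i' hi'
      have hne : i' ≠ i := Finset.ne_of_mem_erase hi'
      rw [Matrix.transpose_apply, Matrix.updateRow_ne hne]
      apply h
      intro h2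
      apply hne
      apply σ.injective
      rw [h2, hσ]
  · have h1 : nS v (M.updateRow i (Pi.single st 1) i (σ i)) = 0 := by
      rw [Matrix.updateRow_self, Pi.single_eq_of_ne hσ, nS_zero]
    rw [h1, zero_mul]
    exact hprod

/-- entries of the adjugate of an `S`-integral matrix are `S`-integral -/
theorem SInt_adj {ι : Type} [Fintype ι] [DecidableEq ι] (M : Matrix ι ι k)
    (h : ∀ i j, SInt T (M i j)) (i j : ι) : SInt T (M.adjugate i j) := by
  rw [Matrix.adjugate_apply]
  apply SInt.det
  intro a b
  by_cases ha : a = j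
  · rw [ha, Matrix.updateRow_self]
    by_cases hb : b = i
    · rw [hb, Pi.single_eq_same]
      exact SInt.one
    · rw [Pi.single_eq_of_ne hb]
      exact SInt.zero
  · rw [Matrix.updateRow_ne ha]
    exact h a b

/-- heights of ratios of transformed coordinates -/
theorem exists_height_const {ι : Type} [Fintype ι] [DecidableEq ι] [Nonempty ι]
    (A' : SP k T → Matrix ι ι k) :
    ∃ C2 : ℝ, 1 ≤ C2 ∧ ∀ (a : ι → k), a ≠ 0 → ∀ (v : SP k T) (i i0 : ι),
      Height.mulHeight₁ (Matrix.vecMul a (A' v) i / a i0) ≤ C2 * Height.mulHeight a := by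
  classical
  -- clear denominators
  obtain ⟨d, hd0, ⟨d', hd'⟩, hd⟩ := exists_den (fun p : SP k T × ι × ι => A' p.1 p.2.1 p.2.2)
  set c : ℝ := 1 + (∑ u : InfinitePlace k, u d) +
    ∑ u : InfinitePlace k, ∑ p : SP k T × ι × ι, u (d * A' p.1 p.2.1 p.2.2) with hc
  have hn1 : 0 ≤ ∑ u : InfinitePlace k, u d := Finset.sum_nonneg (fun u _ => apply_nonneg u _)
  have hn2 : 0 ≤ ∑ u : InfinitePlace k, ∑ p : SP k T × ι × ι, u (d * A' p.1 p.2.1 p.2.2) :=
    Finset.sum_nonneg (fun u _ => Finset.sum_nonneg (fun p _ => apply_nonneg u _))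
  have hc1 : 1 ≤ c := by linarith
  refine ⟨c ^ Module.finrank ℚ k, one_le_pow₀ hc1, ?_⟩
  intro a ha v i i0
  rw [Height.mulHeight₁_div_eq_mulHeight]
  rw [← Height.mulHeight_smul_eq_mulHeight _ hd0]
  have hpow := Pool.Agent.Helper96.Ru.heightLocal k (Fin 2) ι
    (d • ![Matrix.vecMul a (A' v) i, a i0]) a 1 c ha hc1
  rw [pow_one] at hpow
  apply hpow
  · intro u j
    rw [pow_one]
    have hle : ∀ l, u (a l) ≤ ⨆ j, u (a j) := fun l => Finite.le_ciSup (fun j => u (a j)) l
    have hsup : 0 ≤ ⨆ j, u (a j) := Real.iSup_nonneg fun j => apply_nonneg u _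
    fin_cases j
    · show u (d * Matrix.vecMul a (A' v) i) ≤ c * ⨆ j, u (a j)
      have h1 : d * Matrix.vecMul a (A' v) i = ∑ l, (d * A' v l i) * a l := by
        simp only [Matrix.vecMul, dotProduct]
        rw [Finset.mul_sum]
        apply Finset.sum_congr rfl
        intro l _
        ring
      rw [h1]
      calc u (∑ l, (d * A' v l i) * a l) ≤ ∑ l, u ((d * A' v l i) * a l) := u.1.sum_le _ _
        _ = ∑ l, u (d * A' v l i) * u (a l) := by
            apply Finset.sum_congr rfl
            intro l _
            rw [map_mul]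
        _ ≤ ∑ l, u (d * A' v l i) * ⨆ j, u (a j) := by
            apply Finset.sum_le_sum
            intro l _
            exact mul_le_mul_of_nonneg_left (hle l) (apply_nonneg u _)
        _ = (∑ l, u (d * A' v l i)) * ⨆ j, u (a j) := by rw [Finset.sum_mul]
        _ ≤ c * ⨆ j, u (a j) := by
            apply mul_le_mul_of_nonneg_right _ hsup
            have h2 : ∑ l, u (d * A' v l i)
                ≤ ∑ p : SP k T × ι × ι, u (d * A' p.1 p.2.1 p.2.2) := by
              have h3 : ∑ l, u (d * A' v l i)
                  = ∑ p ∈ (Finset.univ : Finset ι).image (fun l => (v, l, i)),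
                    u (d * A' p.1 p.2.1 p.2.2) := by
                rw [Finset.sum_image]
                intro x _ y _ hxy
                simpa using hxy
              rw [h3]
              apply Finset.sum_le_sum_of_subset_of_nonneg (Finset.subset_univ _)
              intro p _ _
              exact apply_nonneg u _
            have h4 : ∑ p : SP k T × ι × ι, u (d * A' p.1 p.2.1 p.2.2)
                ≤ ∑ u : InfinitePlace k, ∑ p : SP k T × ι × ι, u (d * A' p.1 p.2.1 p.2.2) :=
              Finset.single_le_sum (f := fun u : InfinitePlace k =>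
                ∑ p : SP k T × ι × ι, u (d * A' p.1 p.2.1 p.2.2))
                (fun u _ => Finset.sum_nonneg (fun p _ => apply_nonneg u _)) (Finset.mem_univ u)
            linarith
    · show u (d * a i0) ≤ c * ⨆ j, u (a j)
      rw [map_mul]
      have h5 : u d ≤ ∑ u : InfinitePlace k, u d :=
        Finset.single_le_sum (f := fun u : InfinitePlace k => u d)
          (fun u _ => apply_nonneg u _) (Finset.mem_univ u)
      have h6 : u d ≤ c := by linarith
      exact mul_le_mul h6 (hle i0) (apply_nonneg u _) (by linarith)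
  · intro w j
    rw [pow_one]
    have hle : ∀ l, w (a l) ≤ ⨆ j, w (a j) := fun l => Finite.le_ciSup (fun j => w (a j)) l
    have hsup : 0 ≤ ⨆ j, w (a j) := Real.iSup_nonneg fun j => apply_nonneg w _
    have hint : ∀ b : 𝓞 k, w (b : k) ≤ 1 := fun b =>
      SInt.of_int (T := (∅ : Finset (FinitePlace k))) b w (by simp)
    fin_cases j
    · show w (d * Matrix.vecMul a (A' v) i) ≤ ⨆ j, w (a j)
      have h1 : d * Matrix.vecMul a (A' v) i = ∑ l, (d * A' v l i) * a l := by
        simp only [Matrix.vecMul, dotProduct]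
        rw [Finset.mul_sum]
        apply Finset.sum_congr rfl
        intro l _
        ring
      rw [h1]
      have h2 : ∀ s : Finset ι, w (∑ l ∈ s, (d * A' v l i) * a l) ≤ ⨆ j, w (a j) := by
        intro s
        induction s using Finset.induction_on with
        | empty => simpa using hsup
        | insert l s hl ih =>
          rw [Finset.sum_insert hl]
          refine (FinitePlace.add_le w _ _).trans (max_le ?_ ih)
          rw [map_mul]
          obtain ⟨b, hb⟩ := hd (v, l, i)
          have h3 : w (d * A' v l i) ≤ 1 := by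
            have := hint b
            rwa [hb] at this
          calc w (d * A' v l i) * w (a l) ≤ 1 * w (a l) :=
                mul_le_mul_of_nonneg_right h3 (apply_nonneg w _)
            _ = w (a l) := one_mul _
            _ ≤ _ := hle l
      exact h2 _
    · show w (d * a i0) ≤ ⨆ j, w (a j)
      rw [map_mul]
      have h3 : w d ≤ 1 := by
        have := hint d'
        rwa [hd'] at this
      calc w d * w (a i0) ≤ 1 * w (a i0) := mul_le_mul_of_nonneg_right h3 (apply_nonneg w _)
        _ = w (a i0) := one_mul _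
        _ ≤ _ := hle i0

end Pool.Agent.Helper61.Ru
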